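import Pool.Agent.K7.H70.AS.A

/-!
# The value at one over an abelian extension, from the value over the base field
-/

set_option autoImplicit false

open Complex NumberField IsDedekindDomain
open scoped PeriodPair nonZeroDivisors

namespace Pool.Agent.K7.H70.AS

open Pool.Agent.K7.H56
open Pool.Agent.R430
open Pool.Agent.Y696 Pool.Agent.W192.HK Pool.Agent.TH936.CM H667R3
open Pool.Agent.TH936.PU
open Pool.Agent.Y688 (HL NI euler)

section
variable {N K : Type} [Field N] [NumberField N] [Field K] [NumberField K] [Algebra N K]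
  [IsGalois N K] {G : Type} [CommGroup G] [Finite G] [MulSemiringAction G (𝓞 K)] {n : ℕ}
  {Φ : Ideal (𝓞 N) → G} {ι : Pool.Agent.Y688.RR →+* 𝓞 N}

/-- **the step of the tower, analytic part** -/
theorem step_val (core : Core3) {d : ℕ} (hd : Module.finrank ℚ N = 2 * d) (h3d : ¬ 3 ∣ d)
    (h2 : ∀ v : HeightOneSpectrum (𝓞 N), ((2 : ℕ) : 𝓞 N) ∈ v.asIdeal →
      v.valuation N 2 = WithZero.exp (-1 : ℤ)) (hB : Base ι d)
    (D : DatI (N := N) (K := K) G n Φ) (hno : Odd n)
    (hc : ∀ v : HeightOneSpectrum (𝓞 N), (n : 𝓞 N) ∈ v.asIdeal → ∀ α : 𝓞 N, α ^ 3 - 2 ∉ v.asIdeal)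
    {k : ℕ} (hG : Nat.card G = 2 ^ k) (hk : Module.finrank N K = 2 ^ k) :
    Base ((algebraMap (𝓞 N) (𝓞 K)).comp ι) (d * 2 ^ k) := by
  classical
  have hfinM : Finite (MulChar G ℂ) := inferInstance
  have : Fintype (MulChar G ℂ) := Fintype.ofFinite _
  have hIC : ∀ χ : MulChar G ℂ, IC n (xI n Φ χ) := fun χ => xI_ic D hG χ
  have hcard' : Fintype.card (MulChar G ℂ) = 2 ^ k := by
    rw [← Nat.card_eq_fintype_card, MulChar.card_eq_card_units_of_hasEnoughRootsOfUnity, ← hG]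
    exact Nat.card_congr toUnits.symm.toEquiv
  intro F hF L Ω hC Γ _ v hv
  have hch := fun χ : MulChar G ℂ => core_val core hd h3d h2 hB (hIC χ).conj hno hc
  choose g hg hgv using hch
  set ι' : Pool.Agent.Y688.RR →+* 𝓞 K := (algebraMap (𝓞 N) (𝓞 K)).comp ι with hι'
  have hgood : ∀ P ∈ ScN D.n_ne, ∀ w : {v : HeightOneSpectrum (𝓞 K) // und v = P},
      ∀ (Γ : Type) [LinearOrderedCommGroupWithZero Γ] (v : Valuation ℂ Γ), v 2 < 1 →
        v (1 - gI ι' (X0 1) 1 w.1.asIdeal) = 1 := by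
    intro P hP w Γ _ v hv
    exact good_I hv (noncube_up hk w.2 (hc P ((mem_ScN D.n_ne).1 hP)))
  have hdf : ∀ w : HeightOneSpectrum (𝓞 K), Differentiable ℂ (fun s => 1 - gI ι' (X0 1) s w.asIdeal) :=
    fun w => (differentiable_const _).sub (gI_diff _ w)
  have hF1 : F 1 = (∏ P ∈ ScN D.n_ne, ∏ w : {v : HeightOneSpectrum (𝓞 K) // und v = P},
      (1 - gI ι' (X0 1) 1 w.1.asIdeal)⁻¹) * ∏ χ, g χ 1 := by
    refine mero_eq2 (g := fun s => (∏ P ∈ ScN D.n_ne,
      ∏ w : {v : HeightOneSpectrum (𝓞 K) // und v = P},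
      (1 - gI ι' (X0 1) s w.1.asIdeal)⁻¹) * ∏ χ, g χ s) hF.mero ?_ ?_ hF.an ?_
    · intro z hz
      refine MeromorphicAt.mul ?_ ?_
      · refine MeromorphicAt.fun_prod fun P _ => MeromorphicAt.fun_prod fun w _ => ?_
        exact (((hdf w.1).analyticAt z).meromorphicAt).inv
      · exact MeromorphicAt.fun_prod fun χ _ => (hg χ).mero z hz
    · intro s hs
      have hs' : 3 / 2 < ((starRingEnd ℂ) s).re := by rwa [Complex.conj_re]
      have k1 := VV_prod (X0_ic 1) hF hs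
      have k2 := yw_prodI (iE ι) D (B := fun χ s => (starRingEnd ℂ) (g χ ((starRingEnd ℂ) s))) hs'
        (fun χ => VV_conj (hIC χ) (hg χ) hs')
      have k3 := k2.map (starRingEnd ℂ) Complex.continuous_conj
      have k4 := k1.unique (k3.congr_fun fun w => (conj_yw (ι := ι') s w).symm)
      have key : ∀ w : HeightOneSpectrum (𝓞 K), (starRingEnd ℂ)
          (yw ((algebraMap (𝓞 N) (𝓞 K)).comp (iE ι)) w ((starRingEnd ℂ) s)) =
          (1 - gI ι' (X0 1) s w.asIdeal)⁻¹ := fun w => conj_yw (ι := ι') s w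
      rw [k4]
      simp only [map_mul, map_prod, Complex.conj_conj, key]
    · have h1 : ∀ P ∈ ScN D.n_ne, ∀ w : {v : HeightOneSpectrum (𝓞 K) // und v = P},
          1 - gI ι' (X0 1) 1 w.1.asIdeal ≠ 0 := by
        intro P hP w
        obtain ⟨V, hV⟩ := exists_over_two
        exact ne_of_v (hgood P hP w _ V.valuation hV)
      refine AnalyticAt.mul ?_ (Finset.analyticAt_fun_prod _ fun χ _ => (hg χ).an)
      refine Finset.analyticAt_fun_prod _ fun P hP => Finset.analyticAt_fun_prod _ fun w _ => ?_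
      exact ((hdf w.1).analyticAt 1).inv (h1 P hP w)
  rw [hF1, map_mul, map_prod, map_prod]
  have h5 : ∀ P ∈ ScN D.n_ne, v (∏ w : {v : HeightOneSpectrum (𝓞 K) // und v = P},
      (1 - gI ι' (X0 1) 1 w.1.asIdeal)⁻¹) = 1 := by
    intro P hP
    rw [map_prod]
    refine Finset.prod_eq_one fun w _ => ?_
    rw [map_inv₀, hgood P hP w Γ v hv, inv_one]
  rw [Finset.prod_eq_one h5, one_mul, Finset.prod_congr rfl fun χ _ => hgv χ L Ω hC Γ v hv,
    Finset.prod_const, Finset.card_univ, hcard', pow_mul]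

end

end Pool.Agent.K7.H70.AS
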