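import Pool.Agent.K7.H70.AS.C
import Pool.Agent.R430.B14

/-!
# The 2-part of the conjecture from the value at one
-/

set_option autoImplicit false

namespace Pool.Agent.K7.H70.AS

open NumberField IsDedekindDomain WithZero WeierstrassCurve
open Pool.Agent.K7.H56
open Pool.Agent.R430
open Pool.Agent.W192.HK
open Pool.Agent.Y696
open Pool.Agent.TH841.SH.D
open Pool.Agent.TH936.CM H667R3 Pool.Agent.TH936.PU
open Pool.Agent.W189.NF (aV eV redMap Ov card_res finite_res)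
open scoped Classical

section
variable {K : Type} [Field K] [NumberField K]

/-- **the field with the cube roots of unity** -/
theorem two_part_big (core : Core3) (hGK : Gn K) (ι : Pool.Agent.Y688.RR →+* 𝓞 K) {d : ℕ}
    (hd : Module.finrank ℚ K = 2 * d) (h3d : ¬ 3 ∣ d) (hB : Base ι d) : TwoPart K := by
  obtain ⟨f, -, hf, -, -⟩ := core K ι d hd h3d hGK.two 1 (X0 1) (X0_ic 1) odd_one
  have hval := hB f hf
  have hf1 : f 1 ≠ 0 := by
    obtain ⟨V, hV⟩ := exists_over_two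
    obtain ⟨Ω, hΩ, hC⟩ := exists_cur
    have h1 := hval _ Ω hC _ V.valuation hV
    intro h0
    rw [h0, map_zero] at h1
    exact pow_ne_zero _ ((Valuation.ne_zero_iff _).2 hΩ) h1.symm
  refine ⟨⟨Lam f, Lam_mero hf, fun s hs => ⟨(LSeries_hasProd' (E0 K) (hasseN (iE ι) hGK.three) hs).1,
    (Lam_eq hf hGK.three hs).symm⟩, Lam_an hf, ?_, fun Λ ω hΛ Γ _ v hv => ?_⟩, hGK.pts_odd.1,
    hGK.pts_odd.2, hGK.sha_two, fun v => ⟨hGK.min_all v, ?_⟩⟩
  · rw [Lam_one]
    exact mul_ne_zero hf1 ((map_ne_zero _).2 hf1)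
  · obtain ⟨Ω, hC⟩ := cur_of hΛ.g₂ hΛ.g₃
    have h6 := hval Λ Ω hC Γ v hv
    have h7 := hval Λ Ω hC Γ (vc v) (vc_two hv)
    rw [vc_apply, vc_apply] at h7
    have h8 : v ((Real.sqrt |((3 : ℤ) : ℝ)| : ℝ) : ℂ) = 1 := v_sqrtD hv (by norm_num)
    have h9 : v ((Real.sqrt |(discr K : ℝ)| : ℝ) : ℂ) = 1 := v_sqrtD hv hGK.disc_odd
    have hr1 : InfinitePlace.nrRealPlaces K = 0 := by
      obtain ⟨ω', hω'⟩ := hGK.om
      exact InfinitePlace.IsPrimitiveRoot.nrRealPlaces_eq_zero_of_two_lt (by norm_num) (prim_three hω')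
    have hr2 : InfinitePlace.nrComplexPlaces K = d := by
      have h10 := InfinitePlace.card_add_two_mul_card_eq_rank K
      rw [hr1, hd] at h10
      omega
    have hL := HL_of_Cur hC
    have hΩ : v Ω ≠ 0 := (Valuation.ne_zero_iff _).2 hL.ne
    have hΩ' : v ((starRingEnd ℂ) Ω) ≠ 0 := (Valuation.ne_zero_iff _).2 (by
      rw [Ne, map_eq_zero]; exact hL.ne)
    unfold period
    rw [hr1, hr2, pow_zero, one_mul, area hC.lat, map_div₀, map_mul, map_pow, map_mul, h8, h9,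
      one_mul, mul_one, Lam_one, map_mul, h6, h7, map_mul, mul_pow]
    exact div_self (mul_ne_zero (pow_ne_zero _ hΩ) (pow_ne_zero _ hΩ'))
  · obtain ⟨H, h7, h8⟩ := hGK.tam_all v
    exact ⟨H, fun P => (h7 P).trans (by cases P <;> rfl), h8⟩

variable {K₀ : Type} [Field K₀] [NumberField K₀] [Algebra K₀ K]

/-- **the field without cube roots of unity** -/
theorem two_part_small (core : Core3) (hGK : Gn K) (ι : Pool.Agent.Y688.RR →+* 𝓞 K) {d : ℕ}
    (hd : Module.finrank ℚ K = 2 * d) (h3d : ¬ 3 ∣ d) (hB : Base ι d)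
    (h2K : Module.finrank K₀ K = 2) (hns : ∀ x : K₀, x ^ 2 ≠ -3) : TwoPart K₀ := by
  obtain ⟨f, -, hf, -, -⟩ := core K ι d hd h3d hGK.two 1 (X0 1) (X0_ic 1) odd_one
  have hval := hB f hf
  have hf1 : f 1 ≠ 0 := by
    obtain ⟨V, hV⟩ := exists_over_two
    obtain ⟨Ω, hΩ, hC⟩ := exists_cur
    have h1 := hval _ Ω hC _ V.valuation hV
    intro h0
    rw [h0, map_zero] at h1
    exact pow_ne_zero _ ((Valuation.ne_zero_iff _).2 hΩ) h1.symm
  obtain ⟨τ, Q⟩ := mkQdN (K₀ := K₀) h2K hGK.val3_small hns (iE ι)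
  have hsel : ∀ f : Coch (E0 K), IsCoc (E0 K) f → (∀ σ, f σ + f σ = 0) →
      (∀ v : HeightOneSpectrum (𝓞 K), LocTriv (E0 K) (v.adicCompletion K) f) →
      ∃ T : Pt (E0 K) (AlgebraicClosure K), T + T = 0 ∧
        ∀ σ : Gal K, f σ = act (E0 K) σ.toAlgHom T - T := by
    exact fun f hf h2f hl => hGK.selE hf h2f hl
  refine ⟨⟨fun s => (starRingEnd ℂ) (f ((starRingEnd ℂ) s)), mero_conj hf.mero, fun s hs => ?_,
    an_conj (by rw [map_one]; exact hf.an), ?_, fun Λ ω hΛ Γ _ v hv => ?_⟩, hGK.pts_small.1,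
    hGK.pts_small.2, Pool.Agent.Y664.QA.jobA h2K hGK.pts_odd.2 hsel, fun v => ⟨hGK.min_small v, ?_⟩⟩
  · have k1 := LSeries_hasProd' (E0 K₀) Q.hasseN hs
    refine ⟨k1.1, ?_⟩
    have k2 : HasProd (fun v : HeightOneSpectrum (𝓞 K₀) => XX v s) ((E0 K₀).LSeries s) := k1.2
    have k3 : HasProd (fun v : HeightOneSpectrum (𝓞 K) => yw (iE ι) v s)
        ((starRingEnd ℂ) (f ((starRingEnd ℂ) s))) := by
      have h3 := VV_conj (N := K) (ι := ι) (f := f) (X := X0 1) (X0_ic 1)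
        (by rw [X0_conj (N := K) (n := 1)]; exact hf) hs
      refine h3.congr_fun fun v => ?_
      rw [hX1]
      unfold Pool.Agent.Y696.HH yw
      rw [one_mul]
    have k4 := (Equiv.sigmaFiberEquiv (und0 K₀ (K := K))).hasProd_iff.2 k3
    have k5 := k4.sigma (g := fun v => XX v s) fun v => Q.fibN v s
    show (starRingEnd ℂ) (f ((starRingEnd ℂ) s)) = (E0 K₀).LSeries s
    exact (k2.unique k5).symm
  · simp only [map_one]
    exact (map_ne_zero _).2 hf1
  · obtain ⟨Ω, hC⟩ := cur_of hΛ.g₂ hΛ.g₃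
    have k1 := hval Λ Ω hC Γ (vc v) (vc_two hv)
    rw [vc_apply, vc_apply] at k1
    rw [v_period_conj hC hΛ.real hv] at k1
    have k2 : v ((Real.sqrt |((3 : ℤ) : ℝ)| : ℝ) : ℂ) = 1 := v_sqrtD hv (by norm_num)
    have k3 : v ((Real.sqrt |(discr K₀ : ℝ)| : ℝ) : ℂ) = 1 :=
      v_sqrtD hv (fun hd => hGK.disc_odd (hd.trans (discr_dvd_discr K₀ K)))
    have k4 : v ((2 * |((starRingEnd ℂ) Λ.ω₁ * Λ.ω₂).im| : ℝ) : ℂ) = v (ω : ℂ) ^ 2 := by
      rw [area hC.lat, map_mul, map_mul, k2, one_mul, v_period hC hΛ.real hv,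
        v_period_conj hC hΛ.real hv]
      exact (pow_two _).symm
    have k5 : InfinitePlace.nrRealPlaces K₀ + 2 * InfinitePlace.nrComplexPlaces K₀ = d := by
      rw [InfinitePlace.card_add_two_mul_card_eq_rank K₀]
      have e2 := Module.finrank_mul_finrank ℚ K₀ K
      rw [h2K, hd] at e2
      omega
    have hω0 : v (ω : ℂ) ≠ 0 := (Valuation.ne_zero_iff _).2 (by exact_mod_cast hΛ.real.1.1.ne')
    unfold period
    simp only [map_one]
    rw [map_div₀, map_mul, map_mul, map_pow, map_pow, k4, k3, mul_one, k1, ← pow_mul,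
      ← pow_add, k5]
    exact div_self (pow_ne_zero _ hω0)
  · obtain ⟨H, k7, k8⟩ := hGK.tam_small v
    exact ⟨H, fun P => (k7 P).trans (by cases P <;> rfl), k8⟩

end

end Pool.Agent.K7.H70.AS
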