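import Pool.Agent.K7.H70.AS.B
import Pool.Agent.K7.H70.AS.D
import Pool.Agent.K7.H70.RC.H
import Pool.Agent.R430.R1

/-!
# The tower of quadratic extensions
-/

set_option autoImplicit false

namespace Pool.Agent.K7.H70.AS

open NumberField IsDedekindDomain WithZero WeierstrassCurve
open Pool.Agent.K7.H56
open Pool.Agent.R430
open Pool.Agent.W192.HK
open Pool.Agent.Y696
open Pool.Agent.Y688.QRec
open Pool.Agent.Y688 (dn dn_mem dn_surj)
open scoped Classical

lemma odd_Nc {n : ℕ} (hn : Nc n) : Odd n := by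
  rw [← Nat.not_even_iff_odd]
  intro he
  have := hn.coprime.1
  rw [Nat.coprime_two_right] at this
  exact (Nat.not_even_iff_odd.2 this) he

lemma gal2' {N K : Type} [Field N] [NumberField N] [Field K] [NumberField K] [Algebra N K]
    (h2 : Module.finrank N K = 2) : IsGalois N K := by
  have hq : Algebra.IsQuadraticExtension N K := { finrank_eq_two' := h2 }
  infer_instance

section
variable {F0 N K : Type} [Field F0] [NumberField F0] [IsCyclotomicExtension {3} ℚ F0]
  [Field N] [NumberField N] [Algebra F0 N] [Field K] [NumberField K] [Algebra N K]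

lemma good_Nc' (hNC : NC F0 N) {n : ℕ} (hn : Nc n)
    (v₀ : HeightOneSpectrum (𝓞 N)) (hv : (n : 𝓞 N) ∈ v₀.asIdeal) (x : 𝓞 N) :
    x ^ 3 - 2 ∉ v₀.asIdeal := by
  have h1 : (n : 𝓞 F0) ∈ (und (F := F0) v₀).asIdeal := by
    rw [mem_und, map_natCast]
    exact hv
  exact hNC v₀ (fun y => Nc.cube hn _ h1 y) x

/-- **one quadratic step** -/
theorem step_quad (core : Core3) (hNC : NC F0 N) (hGN : Gn N) {d : ℕ}
    (hd : Module.finrank ℚ N = 2 * d) (h3d : ¬ 3 ∣ d) (h2 : Module.finrank N K = 2)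
    (hUK : Unr N K)
    {ι : Pool.Agent.Y688.RR →+* 𝓞 N} (hB : Base ι d) :
    Base ((algebraMap (𝓞 N) (𝓞 K)).comp ι) (d * 2) := by
  have hgal : IsGalois N K := gal2' h2
  obtain ⟨n, hn, hun⟩ := exists_Nc (goodRam_of_unr hUK)
  have hcard : Nat.card Gal(K/N) = 2 := by rw [IsGalois.card_aut_eq_finrank, h2]
  have hsq : ∀ σ : Gal(K/N), σ * σ = 1 := fun σ => by
    have := pow_card_eq_one' (x := σ)
    rw [hcard, pow_two] at this
    exact this
  have hcomm : ∀ σ τ : Gal(K/N), σ * τ = τ * σ := comm_of_sq hsq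
  have hn0 : n ≠ 0 := by
    rintro rfl
    exact hn 2 Nat.prime_two (dvd_zero _) 0 (by decide)
  have h7 : Nc (7 * n) := by
    intro q hq hd
    rcases (Nat.Prime.dvd_mul hq).1 hd with h | h
    · have : q = 7 := (Nat.prime_dvd_prime_iff_eq hq (by norm_num)).1 h
      subst this
      decide
    · exact hn q hq h
  obtain ⟨ω, hω⟩ := hGN.om
  have ha : (2 * ω + 1) ^ 2 = -3 := by linear_combination 4 * hω
  have A : IsArt n (PhiM hcomm) := Pool.Agent.K7.H70.RC.recip N K (2 * ω + 1) ha d hd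
    (fun v hv => hGN.two v (by exact_mod_cast hv)) hcomm hsq n (odd_Nc hn) hun
  let _ : CommGroup Gal(K/N) := { (inferInstance : Group Gal(K/N)) with mul_comm := hcomm }
  have D := datI_of A hn0 (m := 7) (by norm_num) (by omega) hcomm
  have h := step_val core hd h3d hGN.two hB D (odd_Nc h7) (good_Nc' hNC h7) (k := 1)
    (by rw [pow_one]; exact hcard) (by rw [pow_one, h2])
  rw [pow_one] at h
  exact h

end

section
variable {F0 K : Type} [Field F0] [NumberField F0] [IsCyclotomicExtension {3} ℚ F0]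
  [Field K] [NumberField K] [Algebra F0 K] [IsGalois F0 K]

lemma exists_iota0 (F0 : Type) [Field F0] [NumberField F0] [IsCyclotomicExtension {3} ℚ F0] :
    Nonempty (Pool.Agent.Y688.RR →+* 𝓞 F0) := by
  obtain ⟨a, ha⟩ := exists_sqrt3 (F0 := F0)
  obtain ⟨ι'⟩ := exists_iota (N := F0) ⟨(a - 1) / 2, by
    field_simp
    linear_combination ha⟩
  exact ⟨ι'.comp (RingEquiv.subringCongr RR_eis : Pool.Agent.Y688.RR →+* eis)⟩

lemma fr_M {M : Type} [Field M] [NumberField M] [Algebra F0 M] {n : ℕ}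
    (hn : Module.finrank F0 M = 2 ^ n) : Module.finrank ℚ M = 2 * 2 ^ n := by
  have h1 : Module.finrank ℚ F0 = 2 := by
    rw [IsCyclotomicExtension.finrank (n := 3) F0 (Polynomial.cyclotomic.irreducible_rat (by norm_num))]
    decide
  rw [← Module.finrank_mul_finrank ℚ F0 M, h1, hn]

lemma three_pow (n : ℕ) : ¬ 3 ∣ 2 ^ n := by
  intro h
  have := Nat.Prime.dvd_of_dvd_pow Nat.prime_three h
  omega

/-- **the tower** -/
theorem tower (core : Core3) (ι : Pool.Agent.Y688.RR →+* 𝓞 F0) {r : ℕ}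
    (hr : Module.finrank F0 K = 2 ^ r) (hU : Unr F0 K) (n : ℕ) :
    ∀ (M : Type) [Field M] [NumberField M] [Algebra F0 M], (M →ₐ[F0] K) →
      Module.finrank F0 M = 2 ^ n →
      Gn M ∧ Base ((algebraMap (𝓞 F0) (𝓞 M)).comp ι) (2 ^ n) := by
  induction n with
  | zero =>
    intro M _ _ _ φ h1
    have h1' := h1
    rw [pow_zero] at h1
    rw [pow_zero]
    have hgal : IsGalois F0 M := gal1 h1
    let _ : Algebra M K := φ.toRingHom.toAlgebra
    have : IsScalarTower F0 M K := IsScalarTower.of_algebraMap_eq fun x => (φ.commutes x).symm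
    have hUM : Unr F0 M := unr_bot (K := K) hU
    exact ⟨Gn.of h1' hUM, base0 core h1 hUM _⟩
  | succ m ih =>
    intro M _ _ _ φ h1
    obtain ⟨N, h2, h3⟩ := exists_mid (K := K) h1 hr φ
    let _ : Algebra M K := φ.toRingHom.toAlgebra
    have hFMK : IsScalarTower F0 M K :=
      IsScalarTower.of_algebraMap_eq fun x => (φ.commutes x).symm
    have hUM : Unr F0 M := unr_bot (K := K) hU
    let _ : Algebra N K := (φ.comp N.val).toRingHom.toAlgebra
    have hFNK : IsScalarTower F0 N K :=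
      IsScalarTower.of_algebraMap_eq fun x => ((φ.comp N.val).commutes x).symm
    have hNC : NC F0 N := nc_of_tower (K := K) hr
    have hUK : Unr N M := unr_top (F := F0) hNC hUM
    obtain ⟨hGN, hB⟩ := ih N (φ.comp N.val) h2
    have hgal : IsGalois N M := gal2' h3
    have h4 := step_quad (F0 := F0) (N := N) (K := M) core hNC hGN (fr_M h2) (three_pow m) h3 hUK hB
    have h5 : (algebraMap (𝓞 N) (𝓞 M)).comp ((algebraMap (𝓞 F0) (𝓞 N)).comp ι) =
        (algebraMap (𝓞 F0) (𝓞 M)).comp ι := by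
      rw [← RingHom.comp_assoc]
      congr 1
    rw [h5] at h4
    exact ⟨hGN.step (n := 1) (by rw [h3, pow_one]) hUK, h4⟩

/-- **subfields that contain the cube roots of unity** -/
theorem gen_big (core : Core3) {r : ℕ} (hr : Module.finrank F0 K = 2 ^ r) (hg : GoodRam F0 K)
    {M : Type} [Field M] [NumberField M] [Algebra F0 M] (φ : M →ₐ[F0] K) :
    ∃ (ι : Pool.Agent.Y688.RR →+* 𝓞 M) (n : ℕ), Module.finrank ℚ M = 2 * 2 ^ n ∧ Gn M ∧
      Base ι (2 ^ n) := by
  have hU := unr_of_goodRam hg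
  obtain ⟨ι⟩ := exists_iota0 F0
  have hd : Module.finrank F0 M ∣ 2 ^ r := by
    let _ : Algebra M K := φ.toRingHom.toAlgebra
    have : IsScalarTower F0 M K := IsScalarTower.of_algebraMap_eq fun x => (φ.commutes x).symm
    rw [← hr, ← Module.finrank_mul_finrank F0 M K]
    exact Dvd.intro _ rfl
  obtain ⟨n, -, hn⟩ := (Nat.dvd_prime_pow Nat.prime_two).1 hd
  obtain ⟨h1, h2⟩ := tower core ι hr hU n M φ hn
  exact ⟨_, n, fr_M hn, h1, h2⟩

end

end Pool.Agent.K7.H70.AS
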