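import Pool.Agent.K7.H70.AS.T

/-!
# The 2-part of the conjecture over every subfield of a Galois extension of 2-power degree
-/

set_option autoImplicit false

namespace Pool.Agent.K7.H70.AS

open NumberField IsDedekindDomain
open Pool.Agent.K7.H56
open Pool.Agent.R430
open Pool.Agent.Y696

section
variable {F0 K : Type} [Field F0] [NumberField F0] [IsCyclotomicExtension {3} ℚ F0]
  [Field K] [NumberField K] [Algebra F0 K]

/-- `ℚ(√-3)` maps into every subfield that contains a square root of minus three -/
lemma exists_alg {M : Type} [Field M] [Algebra M K] {a : M} (ha : a ^ 2 = -3) :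
    ∃ f : F0 →+* M, (algebraMap M K).comp f = algebraMap F0 K := by
  have hcz : CharZero M := (RingHom.charZero_iff (algebraMap M K).injective).2 inferInstance
  obtain ⟨ζ, hζ⟩ := IsCyclotomicExtension.exists_isPrimitiveRoot ℚ F0
    (Set.mem_singleton 3) (by norm_num)
  have h1 : ζ ^ 2 + ζ + 1 = 0 := by
    have h3 : ζ ^ 3 = 1 := hζ.pow_eq_one
    have h4 : ζ ≠ 1 := hζ.ne_one (by norm_num)
    have h5 : (ζ - 1) * (ζ ^ 2 + ζ + 1) = 0 := by
      linear_combination h3
    exact (mul_eq_zero.1 h5).resolve_left (sub_ne_zero.2 h4)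
  have hθ : (2 * ζ + 1) ^ 2 = -3 := by linear_combination 4 * h1
  have hmem : algebraMap F0 K ζ ∈ (algebraMap M K).range := by
    have h3 : (algebraMap F0 K (2 * ζ + 1) - algebraMap M K a) *
        (algebraMap F0 K (2 * ζ + 1) + algebraMap M K a) = 0 := by
      have e1 : algebraMap F0 K (2 * ζ + 1) ^ 2 = -3 := by
        rw [← map_pow, hθ, map_neg, map_ofNat]
      have e2 : algebraMap M K a ^ 2 = -3 := by rw [← map_pow, ha, map_neg, map_ofNat]
      linear_combination e1 - e2
    have h4 : ∃ b : M, algebraMap F0 K (2 * ζ + 1) = algebraMap M K b := by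
      rcases mul_eq_zero.1 h3 with h4 | h4
      · exact ⟨a, sub_eq_zero.1 h4⟩
      · exact ⟨-a, by rw [map_neg]; exact eq_neg_of_add_eq_zero_left h4⟩
    obtain ⟨b, hb⟩ := h4
    refine ⟨(b - 1) / 2, ?_⟩
    rw [map_div₀, map_sub, ← hb, map_one, map_ofNat, map_add, map_mul, map_ofNat, map_one]
    field_simp
    ring
  have hall : ∀ x : F0, algebraMap F0 K x ∈ (algebraMap M K).range := by
    intro x
    have h6 : x ∈ Algebra.adjoin ℚ ({ζ} : Set F0) := by
      rw [IsCyclotomicExtension.adjoin_primitive_root_eq_top hζ]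
      exact Algebra.mem_top
    induction h6 using Algebra.adjoin_induction with
    | mem y hy => rw [Set.mem_singleton_iff.1 hy]; exact hmem
    | algebraMap q =>
      refine ⟨(q : M), ?_⟩
      rw [eq_ratCast, map_ratCast, map_ratCast]
    | add y z _ _ hy hz => rw [map_add]; exact add_mem hy hz
    | mul y z _ _ hy hz => rw [map_mul]; exact mul_mem hy hz
  let e : M ≃+* (algebraMap M K).range := RingEquiv.ofBijective (algebraMap M K).rangeRestrict
    ⟨fun x y h => (algebraMap M K).injective (congrArg Subtype.val h),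
      (algebraMap M K).rangeRestrict_surjective⟩
  refine ⟨(e.symm : (algebraMap M K).range →+* M).comp
    ((algebraMap F0 K).codRestrict (algebraMap M K).range hall), ?_⟩
  ext x
  have h7 : ∀ z : (algebraMap M K).range, algebraMap M K (e.symm z) = z := fun z =>
    congrArg Subtype.val (e.apply_symm_apply z)
  exact h7 _

variable [IsGalois F0 K] {k : Type} [Field k] [NumberField k] [Algebra k K]

/-- **Main theorem.** -/
theorem all_k_gen (core : Core3) (hn : ∃ n : ℕ, Module.finrank F0 K = 2 ^ n) (hg : GoodRam F0 K) :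
    TwoPart k := by
  obtain ⟨r, hr⟩ := hn
  by_cases hns : ∀ x : k, x ^ 2 ≠ -3
  · obtain ⟨a0, ha0⟩ := exists_sqrt3 (F0 := F0)
    set a : K := algebraMap F0 K a0 with haK
    have ha : a ^ 2 = -3 := by rw [haK, ← map_pow, ha0, map_neg, map_ofNat]
    set M : IntermediateField k K := IntermediateField.adjoin k {a} with hM
    have haM : a ∈ M := IntermediateField.mem_adjoin_simple_self k a
    obtain ⟨f, hf⟩ := exists_alg (F0 := F0) (K := K) (M := M) (a := ⟨a, haM⟩)
      (Subtype.ext (by
        show a ^ 2 = algebraMap M K (-3)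
        rw [map_neg, map_ofNat]
        exact ha))
    let _ : Algebra F0 M := f.toAlgebra
    let φ : M →ₐ[F0] K :=
      { (algebraMap M K) with
        commutes' := fun x => by
          show algebraMap M K (f x) = algebraMap F0 K x
          rw [← hf]
          rfl }
    obtain ⟨ι, n, hd, hGM, hB⟩ := gen_big (F0 := F0) (K := K) core hr hg φ
    refine two_part_small core hGM ι hd (three_pow n) hB ?_ hns
    have hirr : Irreducible (Polynomial.X ^ 2 - Polynomial.C (-3 : k)) := by
      rw [X_pow_sub_C_irreducible_iff_of_prime Nat.prime_two]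
      exact fun b => hns b
    have hmin : minpoly k a = Polynomial.X ^ 2 - Polynomial.C (-3 : k) := by
      refine (minpoly.eq_of_irreducible_of_monic hirr ?_ (Polynomial.monic_X_pow_sub_C _ two_ne_zero)).symm
      rw [map_sub, map_pow, Polynomial.aeval_X, Polynomial.aeval_C, map_neg, map_ofNat, ha, sub_self]
    have hint : IsIntegral k a := by
      refine ⟨Polynomial.X ^ 2 - Polynomial.C (-3 : k), Polynomial.monic_X_pow_sub_C _ two_ne_zero, ?_⟩
      rw [Polynomial.eval₂_sub, Polynomial.eval₂_pow, Polynomial.eval₂_X, Polynomial.eval₂_C, map_neg,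
        map_ofNat, ha, sub_self]
    have h3 := IntermediateField.adjoin.finrank hint
    rw [hmin, Polynomial.natDegree_X_pow_sub_C] at h3
    exact h3
  · push Not at hns
    obtain ⟨x, hx⟩ := hns
    obtain ⟨f, hf⟩ := exists_alg (F0 := F0) (K := K) (M := k) hx
    let _ : Algebra F0 k := f.toAlgebra
    let φ : k →ₐ[F0] K :=
      { (algebraMap k K) with
        commutes' := fun x => by
          show algebraMap k K (f x) = algebraMap F0 K x
          rw [← hf]
          rfl }
    obtain ⟨ι, n, hd, hGM, hB⟩ := gen_big (F0 := F0) (K := K) core hr hg φ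
    exact two_part_big core hGM ι hd (three_pow n) hB

/-- the rank part -/
theorem rank_gen (core : Core3) (hn : ∃ n : ℕ, Module.finrank F0 K = 2 ^ n) (hg : GoodRam F0 K) :
    RankZero (E27 k) :=
  rankZero_of (all_k_gen (F0 := F0) (K := K) core hn hg)

end

end Pool.Agent.K7.H70.AS
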