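import Pool.Agent.K7.H56.Iface2

/-!
# Dirichlet series with a meromorphic continuation: uniqueness, Euler products, change of modulus
-/

set_option autoImplicit false

open Complex NumberField IsDedekindDomain
open scoped PeriodPair nonZeroDivisors

namespace Pool.Agent.K7.H70.AS

open Pool.Agent.K7.H56
open Pool.Agent.R430
open Pool.Agent.Y696 Pool.Agent.W192.HK Pool.Agent.TH936.CM H667R3
open Pool.Agent.TH936.PU
open Pool.Agent.Y688 (HL NI euler)

lemma mero_eq2 {f g : ℂ → ℂ} (hf : MeromorphicOn f Set.univ) (hg : MeromorphicOn g Set.univ)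
    (h : ∀ s : ℂ, 3 / 2 < s.re → f s = g s) (hf1 : AnalyticAt ℂ f 1) (hg1 : AnalyticAt ℂ g 1) :
    f 1 = g 1 := by
  have hd : MeromorphicOn (fun z => f z - g z) Set.univ := fun z hz =>
    (hf z hz).sub (hg z hz)
  have h2 : meromorphicOrderAt (fun z => f z - g z) 2 = ⊤ := by
    rw [meromorphicOrderAt_eq_top_iff]
    refine Filter.Eventually.filter_mono nhdsWithin_le_nhds ?_
    have : {z : ℂ | 3 / 2 < z.re} ∈ nhds (2 : ℂ) := by
      refine (isOpen_lt continuous_const Complex.continuous_re).mem_nhds ?_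
      show (3 / 2 : ℝ) < (2 : ℂ).re
      norm_num
    filter_upwards [this] with z hz
    rw [h z hz, sub_self]
  have h1 : meromorphicOrderAt (fun z => f z - g z) 1 = ⊤ := by
    by_contra hne
    exact hd.meromorphicOrderAt_ne_top_of_isPreconnected isPreconnected_univ (Set.mem_univ 1)
      (Set.mem_univ 2) hne h2
  rw [meromorphicOrderAt_eq_top_iff] at h1
  have ha : AnalyticAt ℂ (fun z => f z - g z) 1 := hf1.sub hg1
  have h3 : Filter.Tendsto (fun z => f z - g z) (nhdsWithin 1 {1}ᶜ) (nhds (f 1 - g 1)) :=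
    ha.continuousAt.tendsto.mono_left nhdsWithin_le_nhds
  have h4 : Filter.Tendsto (fun z => f z - g z) (nhdsWithin 1 {1}ᶜ) (nhds 0) := by
    refine Filter.Tendsto.congr' ?_ tendsto_const_nhds
    filter_upwards [h1] with z hz
    exact hz.symm
  exact sub_eq_zero.1 (tendsto_nhds_unique h3 h4)

section
variable {N : Type} [Field N] [NumberField N]
variable {n : ℕ} {X : Ideal (𝓞 N) → ℂ} {ι : Pool.Agent.Y688.RR →+* 𝓞 N} {f g : ℂ → ℂ}

/-- the Euler product -/
lemma VV_prod (hX : IC n X) (h : VV ι X f) {s : ℂ} (hs : 3 / 2 < s.re) :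
    HasProd (fun v : HeightOneSpectrum (𝓞 N) => (1 - gI ι X s v.asIdeal)⁻¹) (f s) := by
  have h0 := h.sum s hs
  have h1 := euler (g := gI ι X s) (gI_mulx hX s) (gI_topx hX s) h0.summable.norm
  rw [h0.tsum_eq] at h1
  exact h1

lemma gI_diff (X : Ideal (𝓞 N) → ℂ) (v : HeightOneSpectrum (𝓞 N)) :
    Differentiable ℂ (fun s => gI ι X s v.asIdeal) := by
  unfold gI
  refine Differentiable.const_mul ?_ _
  have hN2 : 2 ≤ nK v := Pool.Agent.H921R2.TatePole.two_le_nm v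
  have hN : ((Ideal.absNorm v.asIdeal : ℕ) : ℂ) ≠ 0 := by
    have : nK v ≠ 0 := by omega
    exact_mod_cast this
  exact (differentiable_id.neg).const_cpow (Or.inl hN)

lemma hX1 (v : HeightOneSpectrum (𝓞 N)) : X0 1 v.asIdeal = 1 := X0_pos (by
  rw [prime_cop_iff, Nat.cast_one]
  exact fun hm => v.isPrime.ne_top ((Ideal.eq_top_iff_one _).2 hm))

/-- change of the modulus -/
theorem VV_mod (hn0 : (n : 𝓞 N) ≠ 0) (hf : VV ι (X0 n) f) (hg : VV ι (X0 1) g) :
    f 1 = (∏ v ∈ ScN hn0, (1 - gI ι (X0 1) 1 v.asIdeal)) * g 1 := by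
  have hd : Differentiable ℂ (fun s => ∏ v ∈ ScN hn0, (1 - gI ι (X0 1) s v.asIdeal)) :=
    Differentiable.fun_finsetProd fun v _ => (differentiable_const _).sub (gI_diff _ v)
  refine mero_eq2 (g := fun s => (∏ v ∈ ScN hn0, (1 - gI ι (X0 1) s v.asIdeal)) * g s) hf.mero
    (fun z hz => ((hd.analyticAt z).meromorphicAt).mul (hg.mero z hz)) ?_ hf.an
    ((hd.analyticAt 1).mul hg.an)
  intro s hs
  classical
  have h1 := VV_prod (X0_ic n) hf hs
  have h2 := VV_prod (X0_ic 1) hg hs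
  have h5 : HasProd (fun P : HeightOneSpectrum (𝓞 N) => if P ∈ ScN hn0 then
      (1 - gI ι (X0 1) s P.asIdeal) else 1) (∏ v ∈ ScN hn0, (1 - gI ι (X0 1) s v.asIdeal)) := by
    have h6 := hasProd_prod_of_ne_finset_one (L := .unconditional _) (s := ScN hn0)
      (f := fun P : HeightOneSpectrum (𝓞 N) => if P ∈ ScN hn0 then
        (1 - gI ι (X0 1) s P.asIdeal) else 1) (fun P hP => if_neg hP)
    rw [Finset.prod_congr rfl (fun P hP => if_pos hP)] at h6
    exact h6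
  refine h1.unique ((h5.mul h2).congr_fun fun v => ?_)
  by_cases hv : v ∈ ScN hn0
  · rw [if_pos hv]
    have h6 : gI ι (X0 n) s v.asIdeal = 0 := by
      unfold gI
      rw [X0_neg, zero_mul, zero_mul]
      rw [prime_cop_iff, not_not]
      exact (mem_ScN hn0).1 hv
    rw [h6, sub_zero, inv_one, mul_inv_cancel₀ (gI_lt (X0_ic 1) hs v)]
  · rw [if_neg hv, one_mul]
    have h6 : gI ι (X0 n) s v.asIdeal = gI ι (X0 1) s v.asIdeal := by
      unfold gI
      rw [hX1, X0_pos]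
      rw [prime_cop_iff]
      exact fun hm => hv ((mem_ScN hn0).2 hm)
    rw [h6]

/-- conjugation of the weights -/
lemma conj_PN (v : HeightOneSpectrum (𝓞 N)) : (starRingEnd ℂ) (PN ι v.asIdeal) = pw (iE ι) v := by
  obtain ⟨f, -, hf⟩ := deg_base (iE ι) v
  rw [PN_prime v hf, map_pow, Complex.conj_conj]
  unfold Pool.Agent.Y696.pw
  rw [fd_of hf]

/-- the Euler factors after conjugation -/
lemma conj_HH (X : Ideal (𝓞 N) → ℂ) (s : ℂ) (v : HeightOneSpectrum (𝓞 N)) :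
    (starRingEnd ℂ) ((1 - gI ι (fun I => (starRingEnd ℂ) (X I)) ((starRingEnd ℂ) s) v.asIdeal)⁻¹) =
      HH (iE ι) v (X v.asIdeal) s := by
  rw [map_inv₀, map_sub, map_one, gI_conj, conj_PN, mul_assoc]
  rfl

/-- the Euler product of the conjugate -/
lemma VV_conj (hX : IC n X) (h : VV ι (fun I => (starRingEnd ℂ) (X I)) f) {s : ℂ}
    (hs : 3 / 2 < s.re) :
    HasProd (fun v : HeightOneSpectrum (𝓞 N) => HH (iE ι) v (X v.asIdeal) s)
      ((starRingEnd ℂ) (f ((starRingEnd ℂ) s))) := by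
  have hs' : 3 / 2 < ((starRingEnd ℂ) s).re := by rwa [Complex.conj_re]
  have h2 := VV_prod hX.conj h hs'
  have h3 := h2.map (starRingEnd ℂ) Complex.continuous_conj
  refine h3.congr_fun fun v => ?_
  simp only [Function.comp_apply]
  exact (conj_HH X s v).symm

/-- the factor over the large field -/
lemma conj_yw (s : ℂ) (v : HeightOneSpectrum (𝓞 N)) :
    (starRingEnd ℂ) (yw (iE ι) v ((starRingEnd ℂ) s)) = (1 - gI ι (X0 1) s v.asIdeal)⁻¹ := by
  have hcj : (fun I : Ideal (𝓞 N) => (starRingEnd ℂ) (X0 1 I)) = X0 1 := by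
    funext I
    unfold X0
    split_ifs
    · rw [map_one]
    · rw [map_zero]
  have h1 := conj_HH (ι := ι) (X0 1) ((starRingEnd ℂ) s) v
  rw [hcj, hX1, Complex.conj_conj] at h1
  have h2 : HH (iE ι) v 1 ((starRingEnd ℂ) s) = yw (iE ι) v ((starRingEnd ℂ) s) := by
    unfold Pool.Agent.Y696.HH yw
    rw [one_mul]
  rw [← h2, ← h1, Complex.conj_conj]

end

/-- the value at one over `N`, where `[N : ℚ] = 2 d` -/
def Base {N : Type} [Field N] [NumberField N] (ι : Pool.Agent.Y688.RR →+* 𝓞 N) (d : ℕ) : Prop :=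
  ∀ f : ℂ → ℂ, VV ι (X0 1) f → ∀ (L : PeriodPair) (Ω : ℂ), Cur L Ω →
    ∀ (Γ : Type) [LinearOrderedCommGroupWithZero Γ] (v : Valuation ℂ Γ), v 2 < 1 → v (f 1) = v Ω ^ d

section
variable {N : Type} [Field N] [NumberField N]
variable {n : ℕ} {X : Ideal (𝓞 N) → ℂ} {ι : Pool.Agent.Y688.RR →+* 𝓞 N}

/-- the values of the twisted functions -/
theorem core_val (core : Core3) {d : ℕ} (hd : Module.finrank ℚ N = 2 * d) (h3d : ¬ 3 ∣ d)
    (h2 : ∀ v : HeightOneSpectrum (𝓞 N), ((2 : ℕ) : 𝓞 N) ∈ v.asIdeal →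
      v.valuation N 2 = WithZero.exp (-1 : ℤ)) (hB : Base ι d) (hX : IC n X) (hn : Odd n)
    (hc : ∀ v₀ : HeightOneSpectrum (𝓞 N), (n : 𝓞 N) ∈ v₀.asIdeal → ∀ x : 𝓞 N, x ^ 3 - 2 ∉ v₀.asIdeal) :
    ∃ f : ℂ → ℂ, VV ι X f ∧ ∀ (L : PeriodPair) (Ω : ℂ), Cur L Ω →
      ∀ (Γ : Type) [LinearOrderedCommGroupWithZero Γ] (v : Valuation ℂ Γ), v 2 < 1 →
        v (f 1) = v Ω ^ d := by
  obtain ⟨f, f0, hf, hf0, hval⟩ := core N ι d hd h3d h2 n X hX hn
  obtain ⟨g, -, hg, -, -⟩ := core N ι d hd h3d h2 1 (X0 1) (X0_ic 1) odd_one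
  have hn0 : (n : 𝓞 N) ≠ 0 := by
    obtain ⟨k, hk⟩ := hn
    have : n ≠ 0 := by omega
    exact_mod_cast this
  refine ⟨f, hf, fun L Ω hC Γ _ v hv => ?_⟩
  have h1 : v (f0 1) = v Ω ^ d := by
    rw [VV_mod hn0 hf0 hg, map_mul, hB g hg L Ω hC Γ v hv, map_prod, Finset.prod_eq_one, one_mul]
    intro P hP
    exact good_I hv (hc P ((mem_ScN hn0).1 hP))
  have h3 := (hval L Ω (HL_of_Cur hC) Γ v hv).2
  have e : f 1 = f0 1 + (f 1 - f0 1) := by ring
  rw [e, v.map_add_eq_of_lt_left (by rwa [h1]), h1]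

end

end Pool.Agent.K7.H70.AS
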