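import Pool.Agent.R430.Q15
import Pool.Agent.Y696.Nd

/-!
# Ramification in towers, and the quadratic steps
-/

set_option autoImplicit false

open NumberField IsDedekindDomain

namespace Pool.Agent.K7.H70.AS

open Pool.Agent.R430
open Pool.Agent.Y696

section
variable {F K : Type} [Field F] [NumberField F] [Field K] [NumberField K] [Algebra F K] [IsGalois F K]

lemma goodRam_of_unr (h : Unr F K) : GoodRam F K := by
  intro w σ hσ hne α hα
  apply hne
  let v₀ : HeightOneSpectrum (𝓞 F) := ⟨w.asIdeal.under (𝓞 F), inferInstance, by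
    intro h
    exact w.ne_bot (Ideal.eq_bot_of_comap_eq_bot h)⟩
  have hlo : w.asIdeal.LiesOver v₀.asIdeal := ⟨rfl⟩
  have he := h v₀ w hlo ⟨α, hα⟩
  rw [Ideal.ramificationIdx'_eq_ramificationIdx _ _ v₀.ne_bot] at he
  exact unr_g w (Algebra.isUnramifiedAt_iff_of_isDedekindDomain.2 he) hσ

lemma unr_of_goodRam (h : GoodRam F K) : Unr F K := by
  intro v₀ v hlo ⟨x, hx⟩
  refine ram_one hlo fun σ hσ => ?_
  by_contra hne
  refine h v σ hσ hne x ?_
  rw [← hlo.over]
  exact hx

end

/-- two does not become a cube -/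
def NC (F N : Type) [Field F] [NumberField F] [Field N] [NumberField N] [Algebra F N] : Prop :=
  ∀ w : HeightOneSpectrum (𝓞 N), (∀ x : 𝓞 F, x ^ 3 - 2 ∉ w.asIdeal.under (𝓞 F)) →
    ∀ x : 𝓞 N, x ^ 3 - 2 ∉ w.asIdeal

section tower
variable {F N K : Type} [Field F] [NumberField F] [Field N] [NumberField N] [Field K] [NumberField K]
  [Algebra F N] [Algebra N K] [Algebra F K] [IsScalarTower F N K]

lemma ram_mul {v₀ : HeightOneSpectrum (𝓞 F)} {P : HeightOneSpectrum (𝓞 N)}
    {w : HeightOneSpectrum (𝓞 K)} (h1 : P.asIdeal.LiesOver v₀.asIdeal)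
    (h2 : w.asIdeal.LiesOver P.asIdeal) :
    v₀.asIdeal.ramificationIdx' w.asIdeal =
      v₀.asIdeal.ramificationIdx' P.asIdeal * P.asIdeal.ramificationIdx' w.asIdeal :=
  Ideal.ramificationIdx'_algebra_tower' v₀.asIdeal P.asIdeal w.asIdeal

lemma unr_bot (h : Unr F K) : Unr F N := by
  intro v₀ P hlo hx
  obtain ⟨w, hw⟩ := exists_above (K := K) P
  have hlo' : w.asIdeal.LiesOver v₀.asIdeal := Ideal.LiesOver.trans w.asIdeal P.asIdeal v₀.asIdeal
  have he := h v₀ w hlo' hx
  rw [ram_mul hlo hw] at he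
  exact Nat.eq_one_of_mul_eq_one_right he

lemma nc_of_tower [IsGalois F K] {m : ℕ} (hm : Module.finrank F K = 2 ^ m) : NC F N := by
  intro P hP x hx
  obtain ⟨w, hw⟩ := exists_above (K := K) P
  have h1 : w.asIdeal.under (𝓞 F) = P.asIdeal.under (𝓞 F) := by
    rw [hw.over, Ideal.under_under]
  refine noncube_up hm (P := und w) (w := w) rfl (fun y hy => hP y ?_)
    (algebraMap (𝓞 N) (𝓞 K) x) ?_
  · rw [← h1]
    exact hy
  · have e : algebraMap (𝓞 N) (𝓞 K) x ^ 3 - 2 = algebraMap (𝓞 N) (𝓞 K) (x ^ 3 - 2) := by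
      rw [map_sub, map_pow, map_ofNat]
    rw [e, ← mem_under_of_lies hw]
    exact hx

lemma unr_top (hNC : NC F N) (h : Unr F K) : Unr N K := by
  intro P w hw ⟨x, hx⟩
  let v₀ : HeightOneSpectrum (𝓞 F) := ⟨P.asIdeal.under (𝓞 F), inferInstance, by
    intro h
    exact P.ne_bot (Ideal.eq_bot_of_comap_eq_bot h)⟩
  have hlo : P.asIdeal.LiesOver v₀.asIdeal := ⟨rfl⟩
  have hlo' : w.asIdeal.LiesOver v₀.asIdeal := Ideal.LiesOver.trans w.asIdeal P.asIdeal v₀.asIdeal
  have hx' : ∃ x : 𝓞 F, x ^ 3 - 2 ∈ v₀.asIdeal := by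
    by_contra hcon
    push Not at hcon
    exact hNC P hcon x hx
  have he := h v₀ w hlo' hx'
  rw [ram_mul hlo hw] at he
  exact Nat.eq_one_of_mul_eq_one_left he

end tower

section quad
variable {F M K : Type} [Field F] [NumberField F] [Field M] [NumberField M] [Algebra F M]
  [Field K] [NumberField K] [Algebra F K] [IsGalois F K]

/-- a subfield of index two -/
theorem exists_mid {m n : ℕ} (hm : Module.finrank F M = 2 ^ (m + 1))
    (hn : Module.finrank F K = 2 ^ n) (φ : M →ₐ[F] K) :
    ∃ N : IntermediateField F M, Module.finrank F N = 2 ^ m ∧ Module.finrank N M = 2 := by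
  have hF2 : Fact (Nat.Prime 2) := ⟨Nat.prime_two⟩
  have hcard : Nat.card Gal(K/F) = 2 ^ n := by
    rw [IsGalois.card_aut_eq_finrank, hn]
  have hR : Module.finrank F φ.fieldRange = 2 ^ (m + 1) := by
    rw [← hm]
    exact ((AlgEquiv.ofInjectiveField φ).toLinearEquiv.finrank_eq).symm
  set H : Subgroup Gal(K/F) := φ.fieldRange.fixingSubgroup with hH
  have h1 := Module.finrank_mul_finrank F φ.fieldRange K
  rw [hR, hn, ← IsGalois.card_fixingSubgroup_eq_finrank, ← hH] at h1
  obtain ⟨j, -, hj⟩ := (Nat.dvd_prime_pow Nat.prime_two).1 (Dvd.intro_left _ h1)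
  rw [hj, ← pow_add] at h1
  have h2 : m + 1 + j = n := Nat.pow_right_injective le_rfl h1
  obtain ⟨H', hH', hle⟩ := Sylow.exists_subgroup_card_pow_succ (p := 2) (n := j)
    (by rw [hcard]; exact pow_dvd_pow 2 (by omega)) hj
  set N' : IntermediateField F K := IntermediateField.fixedField H' with hN'
  have hN'le : N' ≤ φ.fieldRange := by
    have h3 : φ.fieldRange = IntermediateField.fixedField H :=
      (IsGalois.fixedField_fixingSubgroup φ.fieldRange).symm
    rw [h3]
    exact IntermediateField.fixedField_le hle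
  have h4 : Module.finrank N' K = 2 ^ (j + 1) := by
    rw [hN', IntermediateField.finrank_fixedField_eq_card, hH']
  have h5 : Module.finrank F N' = 2 ^ m := by
    have h6 := Module.finrank_mul_finrank F N' K
    rw [h4, hn, ← h2] at h6
    have h7 : 2 ^ (m + 1 + j) = 2 ^ m * 2 ^ (j + 1) := by rw [← pow_add]; congr 1; omega
    rw [h7] at h6
    exact Nat.eq_of_mul_eq_mul_right (pow_pos two_pos _) h6
  set N : IntermediateField F M := N'.comap φ with hN
  have hmap : N.map φ = N' := by
    apply le_antisymm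
    · exact (IntermediateField.gc_map_comap φ).l_u_le N'
    · intro x hx
      obtain ⟨y, rfl⟩ := hN'le hx
      exact ⟨y, hx, rfl⟩
  have h8 : Module.finrank F N = 2 ^ m := by
    rw [← h5, ← hmap]
    exact (IntermediateField.equivMap N φ).toLinearEquiv.finrank_eq
  refine ⟨N, h8, ?_⟩
  have h9 := Module.finrank_mul_finrank F N M
  rw [h8, hm, pow_succ] at h9
  exact Nat.eq_of_mul_eq_mul_left (pow_pos two_pos _) h9

/-- extensions of degree one -/
lemma gal1 (h : Module.finrank F M = 1) : IsGalois F M := by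
  have hb : Function.Bijective (algebraMap F M) :=
    ⟨(algebraMap F M).injective, fun x => by
      have h1 := Subalgebra.bot_eq_top_of_finrank_eq_one h
      have h2 : x ∈ (⊥ : Subalgebra F M) := by rw [h1]; exact Algebra.mem_top
      exact Algebra.mem_bot.1 h2⟩
  exact IsGalois.of_algEquiv (AlgEquiv.ofBijective (Algebra.ofId F M) hb)

end quad

end Pool.Agent.K7.H70.AS
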