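import Pool.Agent.K7.H70.AS.A
import Pool.Agent.K7.H70.AS.U

/-!
# The full L-function; the base of the tower
-/

set_option autoImplicit false

open Complex NumberField IsDedekindDomain
open scoped PeriodPair nonZeroDivisors

namespace Pool.Agent.K7.H70.AS

open Pool.Agent.K7.H56
open Pool.Agent.R430
open Pool.Agent.Y696 Pool.Agent.W192.HK Pool.Agent.TH936.CM H667R3
open Pool.Agent.TH936.PU
open Pool.Agent.W189.NF (aV eV redMap Ov card_res finite_res)
open Pool.Agent.Y688 (HL NI euler)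

lemma an_conj {f : ℂ → ℂ} {z : ℂ} (h : AnalyticAt ℂ f ((starRingEnd ℂ) z)) :
    AnalyticAt ℂ (fun s => (starRingEnd ℂ) (f ((starRingEnd ℂ) s))) z := by
  rw [Complex.analyticAt_iff_eventually_differentiableAt] at h ⊢
  have h1 : Filter.Tendsto (fun s : ℂ => (starRingEnd ℂ) s) (nhds z) (nhds ((starRingEnd ℂ) z)) :=
    Complex.continuous_conj.tendsto z
  filter_upwards [h1.eventually h] with s hs
  exact differentiableAt_conj_conj_iff.2 hs

lemma mero_conj {f : ℂ → ℂ} (h : MeromorphicOn f Set.univ) :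
    MeromorphicOn (fun s => (starRingEnd ℂ) (f ((starRingEnd ℂ) s))) Set.univ := by
  intro z _
  obtain ⟨n, hn⟩ := h ((starRingEnd ℂ) z) (Set.mem_univ _)
  refine ⟨n, ?_⟩
  have h1 := an_conj hn
  refine h1.congr (Filter.Eventually.of_forall fun s => ?_)
  show (starRingEnd ℂ) ((((starRingEnd ℂ) s) - (starRingEnd ℂ) z) ^ n • f ((starRingEnd ℂ) s)) =
    (s - z) ^ n • (starRingEnd ℂ) (f ((starRingEnd ℂ) s))
  rw [smul_eq_mul, smul_eq_mul, map_mul, map_pow, map_sub, Complex.conj_conj, Complex.conj_conj]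

section
variable {N : Type} [Field N] [NumberField N]
variable {n : ℕ} {X : Ideal (𝓞 N) → ℂ} {ι : Pool.Agent.Y688.RR →+* 𝓞 N} {f g : ℂ → ℂ}

/-- the complete L-function -/
noncomputable def Lam (f : ℂ → ℂ) (s : ℂ) : ℂ := f s * (starRingEnd ℂ) (f ((starRingEnd ℂ) s))

lemma Lam_one (f : ℂ → ℂ) : Lam f 1 = f 1 * (starRingEnd ℂ) (f 1) := by
  unfold Lam
  rw [map_one]

lemma Lam_mero (h : VV ι X f) : MeromorphicOn (Lam f) Set.univ := fun z hz =>
  (h.mero z hz).mul (mero_conj h.mero z hz)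

lemma Lam_an (h : VV ι X f) : AnalyticAt ℂ (Lam f) 1 :=
  h.an.mul (an_conj (by rw [map_one]; exact h.an))

lemma X0_conj : (fun I : Ideal (𝓞 N) => (starRingEnd ℂ) (X0 n I)) = X0 n := by
  funext I
  unfold X0
  split_ifs
  · rw [map_one]
  · rw [map_zero]

lemma Lam_prod (h : VV ι (X0 1) f) {s : ℂ} (hs : 3 / 2 < s.re) :
    HasProd (fun v : HeightOneSpectrum (𝓞 N) => ZI (X0 1) v s) (Lam f s) := by
  have h1 := VV_prod (X0_ic 1) h hs
  have h3 := VV_conj (N := N) (ι := ι) (f := f) (X := X0 1) (X0_ic 1)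
    (by rw [X0_conj (N := N) (n := 1)]; exact h) hs
  have h4 := h1.mul h3
  refine h4.congr_fun fun v => ?_
  rw [← lfI_val (ι := ι)]
  unfold lfI
  rw [mul_inv]
  congr 1
  rw [← conj_HH, map_inv₀, map_sub, map_one]

/-- the L-function of the curve -/
lemma Lam_eq (h : VV ι (X0 1) f) (h3K : ∀ v : HeightOneSpectrum (𝓞 N), (3 : 𝓞 N) ∈ v.asIdeal →
      v.valuation N 3 = WithZero.exp (-2 : ℤ)) {s : ℂ} (hs : 3 / 2 < s.re) :
    (E0 N).LSeries s = Lam f s := LN_eqI (iE ι) h3K hs (Lam_prod h hs)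

end

section base
variable {F0 K : Type} [Field F0] [NumberField F0] [IsCyclotomicExtension {3} ℚ F0]
  [Field K] [NumberField K] [Algebra F0 K] [IsGalois F0 K]

/-- the Artin map of the trivial extension -/
lemma art_triv (h1 : Module.finrank F0 K = 1) :
    Art (1 : 𝓞 F0) (1 : (𝓞 F0 ⧸ Ideal.span {(1 : 𝓞 F0)})ˣ →* Gal(K/F0)) := by
  have hG : Nat.card Gal(K/F0) = 1 := by rw [IsGalois.card_aut_eq_finrank, h1]
  have hsub : Subsingleton Gal(K/F0) := (Nat.card_eq_one_iff_unique.1 hG).1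
  refine ⟨fun σ => ⟨1, Subsingleton.elim _ _⟩, fun v _ => unram_at fun σ _ => Subsingleton.elim _ _,
    fun π hπ u _ v hv x => ?_⟩
  obtain ⟨y, rfl⟩ := Algebra.IsInvariant.isInvariant (A := 𝓞 F0) (G := Gal(K/F0)) x
    (fun g => by rw [Subsingleton.elim g 1, one_smul])
  have hPp : (Ideal.span {π} : Ideal (𝓞 F0)).IsPrime := (Ideal.span_singleton_prime hπ.ne_zero).2 hπ
  have hP0 : (Ideal.span {π} : Ideal (𝓞 F0)) ≠ ⊥ := by
    rw [Ne, Ideal.span_singleton_eq_bot]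
    exact hπ.ne_zero
  have hmax : (Ideal.span {π} : Ideal (𝓞 F0)).IsMaximal := hPp.isMaximal hP0
  have hfin : Finite (𝓞 F0 ⧸ Ideal.span {π}) := Ideal.finiteQuotientOfFreeOfNeBot _ hP0
  let _ : Field (𝓞 F0 ⧸ Ideal.span {π}) := Ideal.Quotient.field _
  let _ : Fintype (𝓞 F0 ⧸ Ideal.span {π}) := Fintype.ofFinite _
  have h2 : y - y ^ Nat.card (𝓞 F0 ⧸ Ideal.span {π}) ∈ Ideal.span {π} := by
    rw [← Ideal.Quotient.eq_zero_iff_mem, map_sub, map_pow, Nat.card_eq_fintype_card,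
      FiniteField.pow_card, sub_self]
  rw [Ideal.mem_span_singleton] at h2
  obtain ⟨c, hc⟩ := h2
  rw [MonoidHom.one_apply, one_smul, ← map_pow, ← map_sub, hc, map_mul]
  exact v.asIdeal.mul_mem_right _ hv

/-- **the base of the tower** -/
theorem base0 (core : Core3) (h1 : Module.finrank F0 K = 1) (hU : Unr F0 K)
    (ι : Pool.Agent.Y688.RR →+* 𝓞 K) : Base ι 1 := by
  intro f hf L Ω hC Γ _ v hv
  have hGK : Gn K := Gn.of (F := F0) (n := 0) (by rw [h1, pow_zero]) hU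
  have hd : Module.finrank ℚ K = 2 * 1 := by
    have := fr_K (F := F0) (K := K) (n := 0) (by rw [h1, pow_zero])
    rw [this]
    norm_num
  obtain ⟨g, g0, hg, hg0, hval⟩ := core K ι 1 hd (by norm_num) hGK.two 1 (X0 1) (X0_ic 1) odd_one
  have hfg : f 1 = g 1 := mero_eq2 hf.mero hg.mero
    (fun s hs => (hf.sum s hs).unique (hg.sum s hs)) hf.an hg.an
  rw [hfg]
  have hL := HL_of_Cur hC
  have ha := art_triv (F0 := F0) (K := K) h1
  let := commG ha
  obtain ⟨ζ, hζ⟩ := IsCyclotomicExtension.exists_isPrimitiveRoot ℚ F0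
    (Set.mem_singleton 3) (by norm_num)
  obtain ⟨σ, hσ⟩ := exists_emb hζ
  obtain ⟨Lf, k1, k2, k3, k4, k5⟩ := analytic_main (mkDat (n := 0) (by rw [h1, pow_zero]) ha
    (isoE hζ σ hσ) one_ne_zero isCoprime_one_left isCoprime_one_left
    (fun v₀ hv₀ => absurd ((Ideal.eq_top_iff_one _).2 hv₀) v₀.isPrime.ne_top))
  have hG : Nat.card Gal(K/F0) = 1 := by rw [IsGalois.card_aut_eq_finrank, h1]
  have hLam : Lf 1 = Lam g 1 := by
    refine mero_eq2 k1 (Lam_mero hg) (fun s hs => ?_) k3 (Lam_an hg)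
    rw [(k2 s hs).2]
    exact Lam_eq hg hGK.three hs
  have hv1 := k5 L Ω hC Γ v hv
  rw [hG, hLam, Lam_one, pow_one] at hv1
  set Z : ℂ := g 1 with hZ
  have i1 := (hval L Ω hL Γ v hv).1
  have i2 := (hval L Ω hL Γ (vc v) (vc_two hv)).1
  rw [vc_apply, vc_apply] at i2
  have hΩ : v Ω ≠ 0 := (Valuation.ne_zero_iff _).2 hL.ne
  have hΩ' : v ((starRingEnd ℂ) Ω) ≠ 0 := (Valuation.ne_zero_iff _).2 (by
    rw [Ne, map_eq_zero]; exact hL.ne)
  rw [pow_one] at i1 i2 ⊢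
  rw [map_div₀, map_mul, map_mul, div_eq_one_iff_eq (mul_ne_zero hΩ hΩ')] at hv1
  refine le_antisymm i1 ?_
  by_contra hlt
  push Not at hlt
  have hp : 0 < v ((starRingEnd ℂ) Ω) := zero_lt_iff.2 hΩ'
  have : v Z * v ((starRingEnd ℂ) Z) < v Ω * v ((starRingEnd ℂ) Ω) := by
    calc v Z * v ((starRingEnd ℂ) Z) ≤ v Z * v ((starRingEnd ℂ) Ω) := by gcongr
      _ < v Ω * v ((starRingEnd ℂ) Ω) := mul_lt_mul_of_pos_right hlt hp
  rw [hv1] at this
  exact lt_irrefl _ this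

end base

end Pool.Agent.K7.H70.AS
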